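import Pool.Agent.N922.PQ.Stm

/-!
# Part TW2: the local condition at `2` for the twist by `D = 1` modulo `8`
-/

set_option autoImplicit false

open Polynomial

namespace Pool.Agent.N3.PQ

open Pool.Agent.N922.PQ
open Pool.Agent.N874.PM (PLoc)

namespace TW2

/-- an integer which is `1` modulo `8` is a square in `ℚ_2` (after `N891/PQ/TwA.lean`) -/
theorem sq_two (D : ℤ) (hD : D % 8 = 1) : ∃ δ : ℚ_[2], δ ^ 2 = (D : ℚ_[2]) := by
  obtain ⟨F, hF⟩ : ∃ F : ℤ[X], F = X ^ 2 - C D := ⟨_, rfl⟩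
  have h1 : F.aeval (1 : ℤ_[2]) = ((1 - D : ℤ) : ℤ_[2]) := by
    rw [hF, map_sub, map_pow, aeval_X, aeval_C]
    simp
  have h2 : F.derivative.aeval (1 : ℤ_[2]) = 2 := by
    rw [hF]
    simp only [derivative_sub, derivative_X_pow, derivative_C, sub_zero, map_mul, aeval_C, map_pow,
      aeval_X, one_pow, mul_one]
    simp
  have hn2 : ‖(2 : ℤ_[2])‖ = 2⁻¹ := by
    have := PadicInt.norm_p (p := 2)
    push_cast at this
    exact this
  have h3 : ‖F.aeval (1 : ℤ_[2])‖ < ‖F.derivative.aeval (1 : ℤ_[2])‖ ^ 2 := by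
    rw [h1, h2, hn2]
    have h4 : ‖((1 - D : ℤ) : ℤ_[2])‖ ≤ ((2 : ℕ) : ℝ) ^ (-((3 : ℕ) : ℤ)) := by
      rw [PadicInt.norm_int_le_pow_iff_dvd]
      push_cast
      omega
    refine h4.trans_lt ?_
    norm_num
  obtain ⟨z, hz, -⟩ := hensels_lemma h3
  refine ⟨(z : ℚ_[2]), ?_⟩
  rw [hF, map_sub, map_pow, aeval_X, aeval_C, sub_eq_zero] at hz
  have h5 := congrArg (fun x : ℤ_[2] => (x : ℚ_[2])) hz
  simpa using h5

/-- substitution `X -> D X` in the cubic polynomial of the twist -/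
theorem comp_cub {K : Type} [Field K] (a b D : K) :
    (X ^ 3 + C (a * D ^ 2) * X + C (b * D ^ 3) : K[X]).comp (C D * X) =
      C (D ^ 3) * (X ^ 3 + C a * X + C b) := by
  simp only [add_comp, mul_comp, pow_comp, X_comp, C_comp, map_mul, map_pow]
  ring

theorem dvd_comp_cub {K : Type} [Field K] (a b D : K) {P : K[X]}
    (h : X ^ 3 + C (a * D ^ 2) * X + C (b * D ^ 3) ∣ P) :
    X ^ 3 + C a * X + C b ∣ P.comp (C D * X) := by
  obtain ⟨Q, rfl⟩ := h
  rw [mul_comp, comp_cub]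
  exact ⟨C (D ^ 3) * Q.comp (C D * X), by ring⟩

end TW2

/-- **Part TW2.** -/
theorem tw2 : S_TW2 := by
  intro M F _ _ _ _ j φ hj a b D hD0 hD8 h H
  obtain ⟨d, hd⟩ := TW2.sq_two D hD8
  have hDne : (D : ℚ_[2]) ≠ 0 := by exact_mod_cast hD0.ne'
  have hdne : d ≠ 0 := by
    intro h0
    rw [h0, zero_pow two_ne_zero] at hd
    exact hDne hd.symm
  have hcomp : j.comp (algebraMap M F) = φ := RingHom.ext hj
  have hmap : (h.map (algebraMap M F)).map j = h.map φ := by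
    rw [Polynomial.map_map, hcomp]
  have hA : j (algebraMap M F ((a * D ^ 2 : ℤ) : M)) = (a : ℚ_[2]) * (D : ℚ_[2]) ^ 2 := by
    rw [hj]
    simp
  have hB : j (algebraMap M F ((b * D ^ 3 : ℤ) : M)) = (b : ℚ_[2]) * (D : ℚ_[2]) ^ 3 := by
    rw [hj]
    simp
  have hcub : (X ^ 3 + C (algebraMap M F ((a * D ^ 2 : ℤ) : M)) * X +
      C (algebraMap M F ((b * D ^ 3 : ℤ) : M)) : F[X]).map j =
      X ^ 3 + C ((a : ℚ_[2]) * (D : ℚ_[2]) ^ 2) * X + C ((b : ℚ_[2]) * (D : ℚ_[2]) ^ 3) := by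
    simp only [Polynomial.map_add, Polynomial.map_mul, Polynomial.map_pow, map_X, map_C, hA, hB]
  have hh : (h.comp (C (D : M) * X)).map φ = (h.map φ).comp (C (D : ℚ_[2]) * X) := by
    rw [Polynomial.map_comp, Polynomial.map_mul, map_C, map_X]
    simp
  rw [hh]
  rcases H with ⟨g, hg⟩ | ⟨x, y, hy, hxy, g, hg⟩
  · left
    refine ⟨(g.map j).comp (C (D : ℚ_[2]) * X), ?_⟩
    have h1 := Polynomial.map_dvd j hg
    rw [hcub, Polynomial.map_sub, hmap, Polynomial.map_pow] at h1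
    have h2 := TW2.dvd_comp_cub _ _ _ h1
    rw [sub_comp, pow_comp] at h2
    exact h2
  · right
    refine ⟨j x / D, j y / d ^ 3, ?_, ?_, C (1 / d) * (g.map j).comp (C (D : ℚ_[2]) * X), ?_⟩
    · have : j y ≠ 0 := (map_ne_zero j).mpr hy
      exact div_ne_zero this (pow_ne_zero 3 hdne)
    · have h1 := congrArg j hxy
      rw [map_pow, map_add, map_add, map_pow, map_mul, hA, hB] at h1
      have h3 : (d ^ 3) ^ 2 = (D : ℚ_[2]) ^ 3 := by rw [← hd]; ring
      rw [div_pow, h3, h1]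
      field_simp
    · have h1 := Polynomial.map_dvd j hg
      rw [hcub, Polynomial.map_sub, Polynomial.map_mul, hmap, Polynomial.map_pow,
        Polynomial.map_sub, map_C, map_X] at h1
      have h2 := TW2.dvd_comp_cub _ _ _ h1
      rw [sub_comp, pow_comp, mul_comp, sub_comp, C_comp, X_comp] at h2
      have h3 : (C (j x / (D : ℚ_[2])) - X) * (h.map φ).comp (C (D : ℚ_[2]) * X) -
          (C (1 / d) * (g.map j).comp (C (D : ℚ_[2]) * X)) ^ 2 =
          C (1 / (D : ℚ_[2])) * ((C (j x) - C (D : ℚ_[2]) * X) *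
            (h.map φ).comp (C (D : ℚ_[2]) * X) - (g.map j).comp (C (D : ℚ_[2]) * X) ^ 2) := by
        have e1 : (C (j x / (D : ℚ_[2])) : ℚ_[2][X]) = C (1 / (D : ℚ_[2])) * C (j x) := by
          rw [← C_mul]
          congr 1
          field_simp
        have e2 : (C (1 / (D : ℚ_[2])) : ℚ_[2][X]) * C (D : ℚ_[2]) = 1 := by
          rw [← C_mul, one_div_mul_cancel hDne, C_1]
        have e3 : (C (1 / d) : ℚ_[2][X]) ^ 2 = C (1 / (D : ℚ_[2])) := by
          rw [← C_pow, div_pow, one_pow, hd]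
        rw [e1, mul_pow, e3]
        linear_combination (-(X : ℚ_[2][X]) * (h.map φ).comp (C (D : ℚ_[2]) * X)) * (1 - e2) + 0
      rw [h3]
      exact Dvd.dvd.mul_left h2 _

end Pool.Agent.N3.PQ
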